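import Pool.Agent.Helper44_MinRank.Triangular

namespace Pool.Agent.Helper44_MinRank

open Finset

variable {F : Type*} [Field F] {m n : ℕ}

lemma mr_le (A : PMat F m n) (B : Matrix (Fin m) (Fin n) F) (h : IsCompletion A B) :
    mr A ≤ B.rank := Nat.sInf_le ⟨B, h, rfl⟩

lemma exists_completion (A : PMat F m n) :
    ∃ B : Matrix (Fin m) (Fin n) F, IsCompletion A B ∧ B.rank = mr A := by
  have : ({r | ∃ B : Matrix (Fin m) (Fin n) F, IsCompletion A B ∧ B.rank = r} : Set ℕ).Nonempty := by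
    refine ⟨_, fun i j => (A i j).getD 0, ?_, rfl⟩
    intro i j a h
    simp [h]
  exact Nat.sInf_mem this

lemma mrBlock_le (A : PMat F m n) (b : ℕ) (B : Matrix (Fin m × Fin b) (Fin n × Fin b) F)
    (h : IsBlockCompletion A b B) : mrBlock A b ≤ B.rank := Nat.sInf_le ⟨B, h, rfl⟩

lemma exists_blockCompletion (A : PMat F m n) (b : ℕ) :
    ∃ B : Matrix (Fin m × Fin b) (Fin n × Fin b) F, IsBlockCompletion A b B ∧
      B.rank = mrBlock A b := by
  have : ({r | ∃ B : Matrix (Fin m × Fin b) (Fin n × Fin b) F, IsBlockCompletion A b B ∧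
      B.rank = r} : Set ℕ).Nonempty := by
    refine ⟨_, fun p q => (A p.1 q.1).getD 0 * (1 : Matrix (Fin b) (Fin b) F) p.2 q.2, ?_, rfl⟩
    intro i j a h s t
    simp [h]
  exact Nat.sInf_mem this

/-- Key inequality: for a triangular subpattern `T` of the pattern of knowns of `A`,
`b * mr(A | T) ≤ mr_b(A)`. -/
lemma mul_mr_restrict_le (A : PMat F m n) (T : Set (Fin m × Fin n)) (hTA : T ⊆ pattern A)
    (hT : IsTriangular T) (b : ℕ) : b * mr (restrict A T) ≤ mrBlock A b := by
  classical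
  -- sort the rows by decreasing number of knowns
  let N : Fin m → Set (Fin n) := fun i => {j | (i, j) ∈ T}
  have hchain : ∀ i k, N i ⊆ N k ∨ N k ⊆ N i := by
    intro i k
    by_contra hcon
    push Not at hcon
    obtain ⟨h1, h2⟩ := hcon
    obtain ⟨j, hj1, hj2⟩ := Set.not_subset.mp h1
    obtain ⟨l, hl1, hl2⟩ := Set.not_subset.mp h2
    rcases hT i j k l hj1 hl1 with h | h
    · exact hl2 h
    · exact hj2 h
  let f : Fin m → ℕᵒᵈ := fun i => OrderDual.toDual (Set.ncard (N i))
  let σ : Equiv.Perm (Fin m) := Tuple.sort f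
  have hmono := Tuple.monotone_sort f
  have hN : ∀ i k, i ≤ k → N (σ k) ⊆ N (σ i) := by
    intro i k hik
    have h1 : Set.ncard (N (σ k)) ≤ Set.ncard (N (σ i)) := hmono hik
    rcases hchain (σ k) (σ i) with h | h
    · exact h
    · exact (Set.eq_of_subset_of_ncard_le h h1 (Set.toFinite _)).symm.subset
  obtain ⟨M, I, l, hM1, hM2, hl⟩ := greedy n m (fun i j => (A (σ i) j).getD 0) (fun i => N (σ i)) hN
  -- the completion of `A | T`
  let M' : Matrix (Fin m) (Fin n) F := fun i j => M (σ.symm i) j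
  have hM'c : IsCompletion (restrict A T) M' := by
    intro i j a h
    unfold restrict at h
    split_ifs at h with hT'
    have : j ∈ N (σ (σ.symm i)) := by simpa [N] using hT'
    have h2 := hM1 (σ.symm i) j this
    simp only [M']
    rw [h2]
    simp [h]
  have hrank : M'.rank ≤ I.card := by
    rw [Matrix.rank_eq_finrank_span_row]
    have hle : Submodule.span F (Set.range M'.row) ≤
        Submodule.span F (M '' (I : Set (Fin m))) := by
      rw [Submodule.span_le]
      rintro _ ⟨i, rfl⟩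
      exact hM2 (σ.symm i)
    refine (Submodule.finrank_mono hle).trans ?_
    have : M '' (I : Set (Fin m)) = ((I.image M : Finset (Fin n → F)) : Set (Fin n → F)) := by
      simp
    rw [this]
    exact (finrank_span_finset_le_card _).trans Finset.card_image_le
  obtain ⟨B, hB, hBr⟩ := exists_blockCompletion A b
  -- reindex the block rows of `B`
  let B' : Matrix (Fin m × Fin b) (Fin n × Fin b) F := B.submatrix (fun p => (σ p.1, p.2)) id
  have hB' : ∀ i j, j ∈ N (σ i) → ∀ s t,
      B' (i, s) (j, t) = (A (σ i) j).getD 0 * (1 : Matrix (Fin b) (Fin b) F) s t := by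
    intro i j hj s t
    have : (σ i, j) ∈ pattern A := hTA hj
    obtain ⟨a, ha⟩ := Option.isSome_iff_exists.mp this
    have h2 := hB (σ i) j a ha s t
    simp only [B', Matrix.submatrix_apply, id]
    rw [h2, ha]
    simp
  have h3 := block_lower_bound (fun i j => (A (σ i) j).getD 0) (fun i => N (σ i)) hN I l hl b B' hB'
  have h4 : B'.rank ≤ B.rank := Matrix.rank_submatrix_le _ _ _
  calc b * mr (restrict A T) ≤ b * I.card :=
        Nat.mul_le_mul_left _ ((mr_le _ _ hM'c).trans hrank)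
    _ ≤ B'.rank := h3
    _ ≤ B.rank := h4
    _ = mrBlock A b := hBr

lemma mr_le_size (A : PMat F m n) : mr A ≤ m := by
  obtain ⟨B, _, hr⟩ := exists_completion A
  rw [← hr]
  simpa using B.rank_le_card_height

/-- `tmr(A) ≤ mr_b(A) / b`. -/
lemma mul_tmr_le (A : PMat F m n) (b : ℕ) : b * tmr A ≤ mrBlock A b := by
  by_cases hne : ({r | ∃ T, IsMaxTriangular (pattern A) T ∧ mr (restrict A T) = r} : Set ℕ).Nonempty
  · have hbdd : BddAbove {r | ∃ T, IsMaxTriangular (pattern A) T ∧ mr (restrict A T) = r} := by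
      refine ⟨m, ?_⟩
      rintro r ⟨T, _, rfl⟩
      exact mr_le_size _
    obtain ⟨T, hT, hTr⟩ := Nat.sSup_mem hne hbdd
    have := mul_mr_restrict_le A T hT.1 hT.2.1 b
    unfold tmr
    rw [← hTr]
    exact this
  · have : tmr A = 0 := by
      unfold tmr
      rw [Set.not_nonempty_iff_eq_empty.mp hne]
      simp
    simp [this]

lemma tmr_le_fmr (A : PMat F m n) : (tmr A : ℝ) ≤ fmr A := by
  unfold fmr
  refine le_ciInf (fun b => ?_)
  have hb : (0 : ℝ) < ((b : ℕ) : ℝ) := by exact_mod_cast b.pos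
  rw [le_div_iff₀ hb]
  have := mul_tmr_le A (b : ℕ)
  rw [mul_comm]
  exact_mod_cast this

lemma fmr_le (A : PMat F m n) (b : ℕ+) : fmr A ≤ (mrBlock A (b : ℕ) : ℝ) / ((b : ℕ) : ℝ) := by
  unfold fmr
  refine ciInf_le ⟨0, ?_⟩ b
  rintro _ ⟨c, rfl⟩
  positivity

/-- A triangular subpattern extends to a maximal one. -/
lemma exists_max_triangular (J T : Set (Fin m × Fin n)) (hTJ : T ⊆ J) (hT : IsTriangular T) :
    ∃ S, IsMaxTriangular J S ∧ T ⊆ S := by
  classical
  have hfin : ({S : Set (Fin m × Fin n) | S ⊆ J ∧ IsTriangular S ∧ T ⊆ S}).Finite := Set.toFinite _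
  obtain ⟨S, hS, hmax⟩ := hfin.exists_maximal ⟨T, hTJ, hT, subset_rfl⟩
  refine ⟨S, ⟨hS.1, hS.2.1, ?_⟩, hS.2.2⟩
  intro S' h1 h2 h3
  exact le_antisymm (hmax ⟨h1, h2, hS.2.2.trans h3⟩ h3) h3

/-- Lower bound for `tmr` from one triangular subpattern. -/
lemma le_tmr (A : PMat F m n) (T : Set (Fin m × Fin n)) (hTJ : T ⊆ pattern A)
    (hT : IsTriangular T) (r : ℕ)
    (hr : ∀ B : Matrix (Fin m) (Fin n) F, (∀ i j a, (i, j) ∈ T → A i j = some a → B i j = a) →
      r ≤ B.rank) : r ≤ tmr A := by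
  classical
  obtain ⟨S, hS, hTS⟩ := exists_max_triangular _ T hTJ hT
  have hbdd : BddAbove {r | ∃ T, IsMaxTriangular (pattern A) T ∧ mr (restrict A T) = r} := by
    refine ⟨m, ?_⟩
    rintro r ⟨T, _, rfl⟩
    exact mr_le_size _
  obtain ⟨B, hB, hBr⟩ := exists_completion (restrict A S)
  have h1 : r ≤ mr (restrict A S) := by
    rw [← hBr]
    refine hr B ?_
    intro i j a hij ha
    refine hB i j a ?_
    unfold restrict
    rw [if_pos (hTS hij), ha]
  exact h1.trans (le_csSup hbdd ⟨S, hS, rfl⟩)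

end Pool.Agent.Helper44_MinRank
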