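import Mathlib

/-!
Partial matrices, minimal rank, triangular minimal rank and fractional minimal rank.
-/

namespace Pool.Agent.Helper44_MinRank

/-- A partial `m × n` matrix over `F`: the entry at `(i, j)` is `some a` if it is specified
(known) with value `a`, and `none` if it is unspecified. -/
abbrev PMat (F : Type*) (m n : ℕ) : Type _ := Fin m → Fin n → Option F

variable {F : Type*} [Field F] {m n : ℕ}

/-- `B` is a completion of the partial matrix `A`: it agrees with `A` at all known entries. -/
def IsCompletion (A : PMat F m n) (B : Matrix (Fin m) (Fin n) F) : Prop :=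
  ∀ i j a, A i j = some a → B i j = a

/-- `B` is a completion of the partial block matrix `A ⊗ I_b`: its `(i, j)` block is `a • I_b`
whenever the `(i, j)` entry of `A` is known and equal to `a`; the other blocks are arbitrary. -/
def IsBlockCompletion (A : PMat F m n) (b : ℕ)
    (B : Matrix (Fin m × Fin b) (Fin n × Fin b) F) : Prop :=
  ∀ i j a, A i j = some a → ∀ s t, B (i, s) (j, t) = a * (1 : Matrix (Fin b) (Fin b) F) s t

/-- The minimal rank `mr(A)`: the smallest rank of a completion of `A`. -/
noncomputable def mr (A : PMat F m n) : ℕ :=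
  sInf {r | ∃ B : Matrix (Fin m) (Fin n) F, IsCompletion A B ∧ B.rank = r}

/-- `mr_b(A) = mr(A ⊗ I_b)`: the smallest rank of a completion of `A ⊗ I_b`. -/
noncomputable def mrBlock (A : PMat F m n) (b : ℕ) : ℕ :=
  sInf {r | ∃ B : Matrix (Fin m × Fin b) (Fin n × Fin b) F, IsBlockCompletion A b B ∧ B.rank = r}

/-- The fractional minimal rank `fmr(A) = inf_{b ≥ 1} mr_b(A) / b`. -/
noncomputable def fmr (A : PMat F m n) : ℝ :=
  ⨅ b : ℕ+, (mrBlock A (b : ℕ) : ℝ) / ((b : ℕ) : ℝ)

/-- The pattern of knowns of `A`. -/
def pattern (A : PMat F m n) : Set (Fin m × Fin n) := {p | (A p.1 p.2).isSome = true}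

/-- A pattern `T` is triangular if `(i,j), (k,l) ∈ T` implies `(i,l) ∈ T` or `(k,j) ∈ T`. -/
def IsTriangular (T : Set (Fin m × Fin n)) : Prop :=
  ∀ i j k l, (i, j) ∈ T → (k, l) ∈ T → (i, l) ∈ T ∨ (k, j) ∈ T

/-- `T` is a maximal triangular subpattern of the pattern `J`. -/
def IsMaxTriangular (J T : Set (Fin m × Fin n)) : Prop :=
  T ⊆ J ∧ IsTriangular T ∧ ∀ S, S ⊆ J → IsTriangular S → T ⊆ S → S = T

open Classical in
/-- `A | T`: the partial matrix keeping only the known entries of `A` indexed by `T`. -/
noncomputable def restrict (A : PMat F m n) (T : Set (Fin m × Fin n)) : PMat F m n :=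
  fun i j => if (i, j) ∈ T then A i j else none

/-- The triangular minimal rank `tmr(A)`: the largest value of `mr(A | T)` over the maximal
triangular subpatterns `T` of the pattern of knowns of `A`. -/
noncomputable def tmr (A : PMat F m n) : ℕ :=
  sSup {r | ∃ T, IsMaxTriangular (pattern A) T ∧ mr (restrict A T) = r}

end Pool.Agent.Helper44_MinRank
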