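import Pool.Agent.Helper44_MinRank.Compare

namespace Pool.Agent.Helper44_MinRank

variable (F : Type*) [Field F]

/-- The partial `9 × 8` matrix (`none` = unspecified). -/
def exA : PMat F 9 8 :=
  ![![some 1, some 0, some 0, none, none, none, none, some 0],
    ![some 0, some 1, some 0, some 1, none, none, some 0, none],
    ![some 0, some 0, some 1, some 1, some 1, some 1, some 1, some 1],
    ![some 1, none, some 0, some 0, some 0, none, none, none],
    ![some 0, some 1, none, none, some 0, some 0, none, none],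
    ![some 1, some 0, none, some 0, none, some 0, none, none],
    ![some 1, some (-1), none, some 0, none, none, some 0, none],
    ![some 1, some (-1), none, none, some 0, none, none, some 0],
    ![none, none, none, none, none, some 0, some 0, some 1]]

variable {F}

/-- A rank `≤ 3` matrix with identity leading `3 × 3` block is determined by its first three rows
and columns. -/
lemma entry_eq {m n : ℕ} (B : Matrix (Fin m) (Fin n) F) (hB : B.rank ≤ 3)
    (i : Fin 3 → Fin m) (j : Fin 3 → Fin n)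
    (hid : ∀ s t, B (i s) (j t) = (1 : Matrix (Fin 3) (Fin 3) F) s t) (r : Fin m) (c : Fin n) :
    B r c = B r (j 0) * B (i 0) c + B r (j 1) * B (i 1) c + B r (j 2) * B (i 2) c := by
  by_contra hne
  let S : Matrix (Fin 4) (Fin 4) F := B.submatrix ![i 0, i 1, i 2, r] ![j 0, j 1, j 2, c]
  have hdet : S.det = B r c -
      (B r (j 0) * B (i 0) c + B r (j 1) * B (i 1) c + B r (j 2) * B (i 2) c) := by
    have hS : S = !![1, 0, 0, B (i 0) c; 0, 1, 0, B (i 1) c; 0, 0, 1, B (i 2) c;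
        B r (j 0), B r (j 1), B r (j 2), B r c] := by
      ext s t
      fin_cases s <;> fin_cases t <;> simp [S, hid]
    rw [hS]
    simp [Matrix.det_succ_row_zero, Fin.sum_univ_succ, Fin.succAbove]
    ring
  have hunit : IsUnit S := by
    rw [Matrix.isUnit_iff_isUnit_det, hdet, isUnit_iff_ne_zero]
    exact sub_ne_zero.mpr hne
  have h4 : S.rank = 4 := by simpa using Matrix.rank_of_isUnit S hunit
  have := Matrix.rank_submatrix_le B ![i 0, i 1, i 2, r] ![j 0, j 1, j 2, c]
  have h5 : S.rank ≤ B.rank := this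
  omega

lemma four_le_mr : 4 ≤ mr (exA F) := by
  obtain ⟨B, hB, hr⟩ := exists_completion (exA F)
  rw [← hr]
  by_contra hlt
  have hlt : B.rank ≤ 3 := by omega
  have h00 := hB 0 0 1 rfl
  have h01 := hB 0 1 0 rfl
  have h02 := hB 0 2 0 rfl
  have h10 := hB 1 0 0 rfl
  have h11 := hB 1 1 1 rfl
  have h12 := hB 1 2 0 rfl
  have h20 := hB 2 0 0 rfl
  have h21 := hB 2 1 0 rfl
  have h22 := hB 2 2 1 rfl
  have hid : ∀ s t, B (![0, 1, 2] s) (![0, 1, 2] t) = (1 : Matrix (Fin 3) (Fin 3) F) s t := by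
    intro s t
    fin_cases s <;> fin_cases t <;> simp [h00, h01, h02, h10, h11, h12, h20, h21, h22]
  have key := entry_eq B hlt ![0, 1, 2] ![0, 1, 2] hid
  simp only [Matrix.cons_val_zero, Matrix.cons_val_one, Matrix.cons_val] at key
  -- known entries
  have k33 := key 3 3
  have k34 := key 3 4
  have k44 := key 4 4
  have k45 := key 4 5
  have k53 := key 5 3
  have k55 := key 5 5
  have k63 := key 6 3
  have k66 := key 6 6
  have k74 := key 7 4
  have k77 := key 7 7
  have k85 := key 8 5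
  have k86 := key 8 6
  have k87 := key 8 7
  rw [hB 3 3 0 rfl, hB 3 0 1 rfl, hB 3 2 0 rfl, hB 1 3 1 rfl, hB 2 3 1 rfl] at k33
  rw [hB 3 4 0 rfl, hB 3 0 1 rfl, hB 3 2 0 rfl, hB 2 4 1 rfl] at k34
  rw [hB 4 4 0 rfl, hB 4 0 0 rfl, hB 4 1 1 rfl, hB 2 4 1 rfl] at k44
  rw [hB 4 5 0 rfl, hB 4 0 0 rfl, hB 4 1 1 rfl, hB 2 5 1 rfl] at k45
  rw [hB 5 3 0 rfl, hB 5 0 1 rfl, hB 5 1 0 rfl, hB 1 3 1 rfl, hB 2 3 1 rfl] at k53
  rw [hB 5 5 0 rfl, hB 5 0 1 rfl, hB 5 1 0 rfl, hB 2 5 1 rfl] at k55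
  rw [hB 6 3 0 rfl, hB 6 0 1 rfl, hB 6 1 (-1) rfl, hB 1 3 1 rfl, hB 2 3 1 rfl] at k63
  rw [hB 6 6 0 rfl, hB 6 0 1 rfl, hB 6 1 (-1) rfl, hB 1 6 0 rfl, hB 2 6 1 rfl] at k66
  rw [hB 7 4 0 rfl, hB 7 0 1 rfl, hB 7 1 (-1) rfl, hB 2 4 1 rfl] at k74
  rw [hB 7 7 0 rfl, hB 7 0 1 rfl, hB 7 1 (-1) rfl, hB 0 7 0 rfl, hB 2 7 1 rfl] at k77
  rw [hB 8 5 0 rfl, hB 2 5 1 rfl] at k85
  rw [hB 8 6 0 rfl, hB 1 6 0 rfl, hB 2 6 1 rfl] at k86
  rw [hB 8 7 1 rfl, hB 0 7 0 rfl, hB 2 7 1 rfl] at k87
  generalize B 0 3 = μ at *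
  generalize B 1 4 = y at *
  generalize B 0 4 = x2 at *
  generalize B 0 5 = c0 at *
  generalize B 1 5 = c1 at *
  generalize B 0 6 = d0 at *
  generalize B 1 7 = e1 at *
  generalize B 3 1 = m2 at *
  generalize B 4 2 = p3 at *
  generalize B 5 2 = q3 at *
  generalize B 6 2 = s3 at *
  generalize B 7 2 = t3 at *
  generalize B 8 0 = n1 at *
  generalize B 8 1 = n2 at *
  generalize B 8 2 = n3 at *
  have e1' : m2 = -μ := by linear_combination -k33
  have e2 : x2 = μ * y := by rw [e1'] at k34; linear_combination -k34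
  have e3 : p3 = -y := by linear_combination -k44
  have e4 : c1 = y := by rw [e3] at k45; linear_combination -k45
  have e5 : q3 = -μ := by linear_combination -k53
  have e6 : c0 = μ := by rw [e5] at k55; linear_combination -k55
  have e7 : s3 = 1 - μ := by linear_combination -k63
  have e8 : d0 = μ - 1 := by rw [e7] at k66; linear_combination -k66
  have e9 : t3 = y - μ * y := by rw [e2] at k74; linear_combination -k74
  have e10 : e1 = y - μ * y := by rw [e9] at k77; linear_combination k77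
  rw [e4, e6] at k85
  rw [e8] at k86
  rw [e10] at k87
  have h10 : (1 : F) = 0 := by
    linear_combination k87 + (μ - 1) * k85 - μ * k86
  exact one_ne_zero h10

end Pool.Agent.Helper44_MinRank
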