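import Pool.Agent.Helper44_MinRank.Example

namespace Pool.Agent.Helper44_MinRank

variable (F : Type*) [Field F]

/-- Left factor (9 block rows, 4 columns) of a rank `4` completion. -/
def P4 : Matrix (Fin 9) (Fin 4) F :=
  !![1, 0, 0, 0; 0, 1, 0, 0; 0, 0, 1, 0; 1, 0, 0, 0; 0, 1, 0, 0; 1, 0, 0, 0;
     1, -1, 1, 0; 1, -1, 0, 0; 0, 0, 0, 1]

/-- Right factor of a rank `4` completion. -/
def Q4 : Matrix (Fin 4) (Fin 8) F :=
  !![1, 0, 0, 0, 0, 0, -1, 0; 0, 1, 0, 1, 0, 0, 0, 0; 0, 0, 1, 1, 1, 1, 1, 1;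
     0, 0, 0, 0, 0, 0, 0, 1]

lemma mr_le_four : mr (exA F) ≤ 4 := by
  have hc : IsCompletion (exA F) (P4 F * Q4 F) := by
    intro i j a h
    fin_cases i <;> fin_cases j <;>
      simp [exA, P4, Q4, Matrix.mul_apply, Fin.sum_univ_succ] at h ⊢ <;> simp [← h]
  refine (mr_le _ _ hc).trans ?_
  refine (Matrix.rank_mul_le_left _ _).trans ?_
  simpa using (P4 F).rank_le_card_width

/-- `2 × 2` matrix units. -/
def μ₂ : Matrix (Fin 2) (Fin 2) F := !![0, 1; 0, 0]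
/-- `2 × 2` matrix units. -/
def y₂ : Matrix (Fin 2) (Fin 2) F := !![0, 0; 1, 0]

/-- Block left factor of a completion of `A ⊗ I₂` of rank `≤ 6`. -/
def RB : Fin 9 → Fin 3 → Matrix (Fin 2) (Fin 2) F :=
  ![![1, 0, 0], ![0, 1, 0], ![0, 0, 1], ![1, -μ₂ F, 0], ![0, 1, -y₂ F], ![1, 0, -μ₂ F],
    ![1, -1, 1 - μ₂ F], ![1, -1, y₂ F - μ₂ F * y₂ F],
    ![-(y₂ F), !![-1, 0; 0, 1], !![0, 0; -1, 1]]]

/-- Block right factor of a completion of `A ⊗ I₂` of rank `≤ 6`. -/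
def CB : Fin 3 → Fin 8 → Matrix (Fin 2) (Fin 2) F :=
  ![![1, 0, 0, μ₂ F, μ₂ F * y₂ F, μ₂ F, μ₂ F - 1, 0],
    ![0, 1, 0, 1, y₂ F, y₂ F, 0, y₂ F - μ₂ F * y₂ F],
    ![0, 0, 1, 1, 1, 1, 1, 1]]

lemma block_products : ∀ i j a, exA F i j = some a →
    ∑ k, RB F i k * CB F k j = a • (1 : Matrix (Fin 2) (Fin 2) F) := by
  intro i j a h
  fin_cases i <;> fin_cases j <;>
    simp [exA, RB, CB, Fin.sum_univ_succ] at h ⊢ <;>
    (try rw [← h]) <;>
    (try ext s t) <;> (try fin_cases s) <;> (try fin_cases t) <;>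
    (try simp [μ₂, y₂, Matrix.mul_apply, Fin.sum_univ_succ, Matrix.one_apply, Matrix.vecMul,
      dotProduct, Matrix.sub_apply])

lemma mrBlock_two_le : mrBlock (exA F) 2 ≤ 6 := by
  let U : Matrix (Fin 9 × Fin 2) (Fin 3 × Fin 2) F := fun p q => RB F p.1 q.1 p.2 q.2
  let V : Matrix (Fin 3 × Fin 2) (Fin 8 × Fin 2) F := fun p q => CB F p.1 q.1 p.2 q.2
  have hc : IsBlockCompletion (exA F) 2 (U * V) := by
    intro i j a h s t
    have h1 := block_products F i j a h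
    have h2 := congrFun (congrFun h1 s) t
    rw [Matrix.smul_apply, smul_eq_mul] at h2
    rw [← h2, Matrix.mul_apply, Fintype.sum_prod_type, Matrix.sum_apply]
    refine Finset.sum_congr rfl (fun k _ => ?_)
    rw [Matrix.mul_apply]
  refine (mrBlock_le _ _ _ hc).trans ?_
  refine (Matrix.rank_mul_le_left _ _).trans ?_
  simpa using U.rank_le_card_width

lemma three_le_tmr : 3 ≤ tmr (exA F) := by
  refine le_tmr (exA F) {p | (p.1 : ℕ) < 3 ∧ (p.2 : ℕ) < 3} ?_ ?_ 3 ?_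
  · rintro ⟨i, j⟩ ⟨hi, hj⟩
    simp only at hi hj
    unfold pattern
    fin_cases i <;> fin_cases j <;> simp [exA] at hi hj ⊢
  · intro i j k l h1 h2
    exact Or.inl ⟨h1.1, h2.2⟩
  · intro B hB
    have hsub : B.submatrix ![0, 1, 2] ![0, 1, 2] = (1 : Matrix (Fin 3) (Fin 3) F) := by
      have h00 := hB 0 0 1 (by simp) rfl
      have h01 := hB 0 1 0 (by simp) rfl
      have h02 := hB 0 2 0 (by simp) rfl
      have h10 := hB 1 0 0 (by simp) rfl
      have h11 := hB 1 1 1 (by simp) rfl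
      have h12 := hB 1 2 0 (by simp) rfl
      have h20 := hB 2 0 0 (by simp) rfl
      have h21 := hB 2 1 0 (by simp) rfl
      have h22 := hB 2 2 1 (by simp) rfl
      ext s t
      fin_cases s <;> fin_cases t <;> simp [h00, h01, h02, h10, h11, h12, h20, h21, h22]
    have h1 := Matrix.rank_submatrix_le B ![0, 1, 2] ![0, 1, 2]
    rw [hsub] at h1
    simpa using h1

theorem main : ∃ A : PMat F 9 8, tmr A = 3 ∧ fmr A = 3 ∧ mr A = 4 := by
  have h1 := three_le_tmr F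
  have h2 := tmr_le_fmr (exA F)
  have h3 : fmr (exA F) ≤ 3 := by
    refine (fmr_le (exA F) 2).trans ?_
    have : (mrBlock (exA F) ((2 : ℕ+) : ℕ) : ℝ) ≤ 6 := by exact_mod_cast mrBlock_two_le F
    have h2' : (((2 : ℕ+) : ℕ) : ℝ) = 2 := by norm_num
    rw [h2']
    linarith
  have h4 : (3 : ℝ) ≤ tmr (exA F) := by exact_mod_cast h1
  have h5 : fmr (exA F) = 3 := le_antisymm h3 (h4.trans h2)
  have h6 : tmr (exA F) = 3 := by
    have : (tmr (exA F) : ℝ) ≤ 3 := h2.trans h3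
    have h7 : tmr (exA F) ≤ 3 := by exact_mod_cast this
    exact le_antisymm h7 h1
  exact ⟨exA F, h6, h5, le_antisymm (mr_le_four F) four_le_mr⟩

end Pool.Agent.Helper44_MinRank
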