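import Pool.Agent.Helper44_MinRank.Defs

namespace Pool.Agent.Helper44_MinRank

open Finset

variable {F : Type*} [Field F] {m n : ℕ}

/-- Greedy completion of a staircase pattern (rows sorted by decreasing sets of knowns). -/
lemma greedy (n : ℕ) : ∀ (m : ℕ) (a : Fin m → Fin n → F) (N : Fin m → Set (Fin n)),
    (∀ i k, i ≤ k → N k ⊆ N i) →
    ∃ (M : Fin m → Fin n → F) (I : Finset (Fin m)) (l : Fin m → Fin n → F),
      (∀ i, ∀ j ∈ N i, M i j = a i j) ∧
      (∀ i, M i ∈ Submodule.span F (M '' (I : Set (Fin m)))) ∧
      (∀ i ∈ I, (∀ j, j ∉ N i → l i j = 0) ∧ (∑ j, l i j * a i j = 1) ∧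
        ∀ k, k < i → ∑ j, l i j * a k j = 0) := by
  classical
  intro m
  induction m with
  | zero =>
    intro a N _
    exact ⟨fun i => i.elim0, ∅, fun i => i.elim0, fun i => i.elim0, fun i => i.elim0,
      fun i => i.elim0⟩
  | succ m ih =>
    intro a N hN
    obtain ⟨M', I', l', h1, h2, h3⟩ := ih (fun i => a i.castSucc) (fun i => N i.castSucc)
      (fun i k hik => hN _ _ (by simpa using hik))
    -- restriction to the columns of the last row
    let π : (Fin n → F) →ₗ[F] (Fin n → F) :=
      { toFun := fun v j => if j ∈ N (Fin.last m) then v j else 0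
        map_add' := by intro v w; ext j; by_cases h : j ∈ N (Fin.last m) <;> simp [h]
        map_smul' := by intro c v; ext j; by_cases h : j ∈ N (Fin.last m) <;> simp [h] }
    have hπ : ∀ v j, π v j = if j ∈ N (Fin.last m) then v j else 0 := fun v j => rfl
    have hπM : ∀ k : Fin m, π (M' k) = π (a k.castSucc) := by
      intro k
      ext j
      rw [hπ, hπ]
      by_cases h : j ∈ N (Fin.last m)
      · simp only [h, if_true]
        exact h1 k j (hN _ _ (Fin.le_last _) h)
      · simp [h]
    by_cases hc : π (a (Fin.last m)) ∈ Submodule.map π (Submodule.span F (Set.range M'))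
    · obtain ⟨v, hv, hvπ⟩ := hc
      refine ⟨Fin.snoc M' v, I'.map Fin.castSuccEmb, Fin.snoc l' 0, ?_, ?_, ?_⟩
      · intro i
        refine Fin.lastCases ?_ (fun i => ?_) i
        · intro j hj
          have := congrFun hvπ j
          rw [hπ, hπ] at this
          simpa [hj] using this
        · intro j hj
          simpa using h1 i j hj
      · have himg : (Fin.snoc M' v : Fin (m+1) → Fin n → F) ''
            ((I'.map Fin.castSuccEmb : Finset (Fin (m+1))) : Set (Fin (m+1))) =
            M' '' (I' : Set (Fin m)) := by
          ext w
          simp only [Finset.coe_map, Set.image_image, Set.mem_image]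
          constructor
          · rintro ⟨i, hi, rfl⟩
            exact ⟨i, hi, by simp⟩
          · rintro ⟨i, hi, rfl⟩
            exact ⟨i, hi, by simp⟩
        intro i
        rw [himg]
        refine Fin.lastCases ?_ (fun i => ?_) i
        · have : Submodule.span F (Set.range M') ≤ Submodule.span F (M' '' (I' : Set (Fin m))) := by
            rw [Submodule.span_le]
            rintro _ ⟨k, rfl⟩
            exact h2 k
          simpa using this hv
        · simpa using h2 i
      · intro i hi
        rw [Finset.mem_map] at hi
        obtain ⟨i0, hi0, rfl⟩ := hi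
        obtain ⟨g1, g2, g3⟩ := h3 i0 hi0
        refine ⟨?_, ?_, ?_⟩
        · intro j hj
          simpa using g1 j hj
        · simpa using g2
        · intro k hk
          have hk' : k ≠ Fin.last m := by
            rintro rfl
            exact absurd hk (not_lt.mpr (Fin.le_last _))
          obtain ⟨k0, rfl⟩ := Fin.exists_castSucc_eq.mpr hk'
          have := g3 k0 (by simpa using hk)
          simpa using this
    · obtain ⟨f, hf0, hfk⟩ := Submodule.exists_le_ker_of_notMem hc
      set c := f (π (a (Fin.last m))) with hcdef
      have hlin : ∀ v : Fin n → F, ∑ j, (f (π (Pi.single j 1)) / c) * v j = f (π v) / c := by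
        intro v
        have hv : v = ∑ j, v j • (Pi.single j (1 : F) : Fin n → F) := by
          ext k
          simp [Finset.sum_apply, Pi.single_apply]
        conv_rhs => rw [hv]
        rw [map_sum, map_sum, Finset.sum_div]
        refine Finset.sum_congr rfl (fun j _ => ?_)
        rw [map_smul, map_smul, smul_eq_mul]
        ring
      refine ⟨Fin.snoc M' (a (Fin.last m)), insert (Fin.last m) (I'.map Fin.castSuccEmb),
        Fin.snoc l' (fun j => f (π (Pi.single j 1)) / c), ?_, ?_, ?_⟩
      · intro i
        refine Fin.lastCases ?_ (fun i => ?_) i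
        · intro j hj
          simp
        · intro j hj
          simpa using h1 i j hj
      · intro i
        refine Fin.lastCases ?_ (fun i => ?_) i
        · refine Submodule.subset_span ⟨Fin.last m, by simp, rfl⟩
        · have hsub : M' '' (I' : Set (Fin m)) ⊆ (Fin.snoc M' (a (Fin.last m)) : Fin (m+1) → Fin n → F) ''
              ((insert (Fin.last m) (I'.map Fin.castSuccEmb) : Finset (Fin (m+1))) : Set (Fin (m+1))) := by
            rintro _ ⟨k, hk, rfl⟩
            refine ⟨k.castSucc, ?_, by simp⟩
            simp only [Finset.coe_insert, Finset.coe_map, Set.mem_insert_iff]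
            right
            exact ⟨k, hk, rfl⟩
          have := Submodule.span_mono hsub (h2 i)
          simpa using this
      · intro i hi
        rw [Finset.mem_insert, Finset.mem_map] at hi
        rcases hi with rfl | ⟨i0, hi0, rfl⟩
        · refine ⟨?_, ?_, ?_⟩
          · intro j hj
            have : π (Pi.single j (1:F)) = 0 := by
              ext k
              rw [hπ]
              by_cases hk : k ∈ N (Fin.last m)
              · have : k ≠ j := by rintro rfl; exact hj hk
                simp [hk, this]
              · simp [hk]
            simp [this]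
          · simp only [Fin.snoc_last]
            rw [hlin]
            exact div_self hf0
          · intro k hk
            have hk' : k ≠ Fin.last m := ne_of_lt hk
            obtain ⟨k0, rfl⟩ := Fin.exists_castSucc_eq.mpr hk'
            simp only [Fin.snoc_last]
            rw [hlin, ← hπM k0]
            have : f (π (M' k0)) = 0 := by
              have := hfk (Submodule.mem_map_of_mem (f := π)
                (Submodule.subset_span (Set.mem_range_self k0)))
              simpa using this
            rw [this, zero_div]
        · obtain ⟨g1, g2, g3⟩ := h3 i0 hi0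
          refine ⟨?_, ?_, ?_⟩
          · intro j hj
            simpa using g1 j hj
          · simpa using g2
          · intro k hk
            have hk' : k ≠ Fin.last m := by
              rintro rfl
              exact absurd hk (not_lt.mpr (Fin.le_last _))
            obtain ⟨k0, rfl⟩ := Fin.exists_castSucc_eq.mpr hk'
            have := g3 k0 (by simpa using hk)
            simpa using this

/-- Lower bound for the rank of block completions from the dual vectors of `greedy`. -/
lemma block_lower_bound (a : Fin m → Fin n → F) (N : Fin m → Set (Fin n))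
    (hN : ∀ i k, i ≤ k → N k ⊆ N i) (I : Finset (Fin m)) (l : Fin m → Fin n → F)
    (hl : ∀ i ∈ I, (∀ j, j ∉ N i → l i j = 0) ∧ (∑ j, l i j * a i j = 1) ∧
        ∀ k, k < i → ∑ j, l i j * a k j = 0) (b : ℕ)
    (B : Matrix (Fin m × Fin b) (Fin n × Fin b) F)
    (hB : ∀ i j, j ∈ N i → ∀ s t, B (i, s) (j, t) = a i j * (1 : Matrix (Fin b) (Fin b) F) s t) :
    b * I.card ≤ B.rank := by
  classical
  let L : Matrix (Fin n × Fin b) (I × Fin b) F :=
    fun q p => l p.1 q.1 * (1 : Matrix (Fin b) (Fin b) F) q.2 p.2
  let D : Matrix (I × Fin b) (I × Fin b) F := (B * L).submatrix (fun p => ((p.1 : Fin m), p.2)) id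
  have hD : ∀ (k i : I) (t s : Fin b), (k : Fin m) ≤ i →
      D (k, t) (i, s) = if k = i then (1 : Matrix (Fin b) (Fin b) F) t s else 0 := by
    intro k i t s hki
    have e1 : D (k, t) (i, s) = ∑ j, ∑ t', B (k, t) (j, t') *
        (l i j * (1 : Matrix (Fin b) (Fin b) F) t' s) := by
      simp only [D, L, Matrix.submatrix_apply, Matrix.mul_apply, id]
      rw [Fintype.sum_prod_type]
    have e2 : ∀ j, ∑ t', B (k, t) (j, t') * (l i j * (1 : Matrix (Fin b) (Fin b) F) t' s) =
        (l i j * a k j) * (1 : Matrix (Fin b) (Fin b) F) t s := by
      intro j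
      by_cases hj : j ∈ N i
      · have hj' : j ∈ N k := hN _ _ hki hj
        rw [Finset.sum_eq_single s]
        · rw [hB k j hj' t s, Matrix.one_apply_eq]
          ring
        · intro t' _ ht'
          rw [Matrix.one_apply_ne ht']
          simp
        · simp
      · have := (hl i i.2).1 j hj
        simp [this]
    rw [e1]
    simp_rw [e2]
    rw [← Finset.sum_mul]
    by_cases h : k = i
    · subst h
      rw [(hl k k.2).2.1]
      simp
    · have hlt : (k : Fin m) < i := lt_of_le_of_ne hki (fun hh => h (Subtype.ext hh))
      rw [(hl i i.2).2.2 k hlt]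
      simp [h]
  have hinj : Function.Injective D.mulVec := by
    have hker : ∀ x, D.mulVec x = 0 → x = 0 := by
      intro x hx
      have key : ∀ (k : ℕ) (i : I), ((i : Fin m) : ℕ) = k → ∀ t, x (i, t) = 0 := by
        intro k
        induction k using Nat.strong_induction_on with
        | _ k ih =>
          intro i hi t
          have h0 := congrFun hx (i, t)
          simp only [Matrix.mulVec, dotProduct, Pi.zero_apply] at h0
          rw [Fintype.sum_prod_type, Finset.sum_eq_single i] at h0
          · rw [Finset.sum_eq_single t] at h0
            · rw [hD i i t t le_rfl] at h0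
              simpa using h0
            · intro s _ hs
              rw [hD i i t s le_rfl]
              simp [Matrix.one_apply_ne (Ne.symm hs)]
            · simp
          · intro i' _ hi'
            refine Finset.sum_eq_zero (fun s _ => ?_)
            rcases lt_or_ge (i' : Fin m) (i : Fin m) with hlt | hge
            · rw [ih ((i' : Fin m) : ℕ) (by rw [← hi]; exact hlt) i' rfl s, mul_zero]
            · rw [hD i i' t s hge, if_neg (Ne.symm hi'), zero_mul]
          · simp
      funext ⟨i, t⟩
      exact key _ i rfl t
    intro x y hxy
    have : D.mulVec (x - y) = 0 := by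
      rw [Matrix.mulVec_sub, hxy, sub_self]
    have := hker _ this
    exact sub_eq_zero.mp this
  have hunit : IsUnit D := Matrix.mulVec_injective_iff_isUnit.mp hinj
  have hrank : D.rank = Fintype.card (I × Fin b) := Matrix.rank_of_isUnit D hunit
  have hle : D.rank ≤ B.rank :=
    (Matrix.rank_submatrix_le _ _ _).trans (Matrix.rank_mul_le_left _ _)
  rw [hrank] at hle
  simpa [Fintype.card_prod, mul_comm] using hle

end Pool.Agent.Helper44_MinRank
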